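import Pool.Agent.TH423.GB.Pairs
import Pool.Agent.TH423.DS.Primes

/-! Many exceptional representations. -/

set_option autoImplicit false

open Finset

namespace Pool.Agent.TH423.GB

open Pool.Agent.H661R3.OP (Rough)
open Pool.Agent.TH423.DS (Rough.mul Rough.prod Rough.prime Cube F_prod prod_one_mod prod_le_pow
  exists_nst cardFactors_le card_divisors_le primes_count)

theorem Exc_finite {H : Type} (F : ℕ → H) (S : Set H) (Y N : ℕ) : (Exc F S Y N).Finite :=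
  (Set.finite_Iio N).subset fun _ hn => hn.2.1

theorem exists_x0 (k : ℕ) (N : ℕ) (hN : Even N) : ∃ x0 : ℤ,
    (∀ p : ℕ, p.Prime → p ≤ k → ¬ (p : ℤ) ∣ x0) ∧
    ∀ p : ℕ, p.Prime → p ≤ k → ¬ (p : ℤ) ∣ N - x0 := by
  obtain ⟨x0, h1, -⟩ := exists_nst k (Polynomial.X * (Polynomial.C (N : ℤ) - Polynomial.X))
    (s := 0) Fin.elim0 (by
      intro p hp
      have hpp := Nat.prime_iff_prime_int.1 hp
      have hp2 := hp.two_le
      have h1 : ¬ (p : ℤ) ∣ 1 := by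
        intro h
        have := Int.le_of_dvd one_pos h
        omega
      by_cases hpN : (p : ℤ) ∣ N - 1
      · refine ⟨2, ?_, fun j => j.elim0⟩
        simp only [Polynomial.eval_mul, Polynomial.eval_X, Polynomial.eval_sub, Polynomial.eval_C]
        intro h
        have hne2 : ¬ (p : ℤ) ∣ 2 := by
          intro h2
          have := Int.le_of_dvd two_pos h2
          have hpe : p = 2 := by omega
          subst hpe
          obtain ⟨m, hm⟩ := hN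
          omega
        rcases hpp.dvd_or_dvd h with h | h
        · exact hne2 h
        · apply h1
          have : (1 : ℤ) = (N - 1) - (N - 2) := by ring
          rw [this]
          exact dvd_sub hpN h
      · refine ⟨1, ?_, fun j => j.elim0⟩
        simp only [Polynomial.eval_mul, Polynomial.eval_X, Polynomial.eval_sub, Polynomial.eval_C]
        rw [one_mul]
        exact hpN)
  refine ⟨x0, fun p hp hpk h => h1 p hp hpk ?_, fun p hp hpk h => h1 p hp hpk ?_⟩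
  · simp only [Polynomial.eval_mul, Polynomial.eval_X, Polynomial.eval_sub, Polynomial.eval_C]
    exact h.mul_right _
  · simp only [Polynomial.eval_mul, Polynomial.eval_X, Polynomial.eval_sub, Polynomial.eval_C]
    exact h.mul_left _

open Classical in
theorem count (r : ℕ) :
    ∃ q C₃ Y₀ : ℕ, 0 < q ∧ 2 ≤ Y₀ ∧ ∀ Y N G R : ℕ, Y₀ ≤ Y → Even N → Y ^ C₃ * G ^ 2 ≤ N →
    Y ^ (C₃ + 1) ≤ G → N < Y ^ (R + 1) →
    ∀ (Γ : Type) [AddCommGroup Γ] (F : ℕ → Γ),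
    (∀ x y : ℕ, x ≠ 0 → y ≠ 0 → F (x * y) = F x + F y) → ∀ (S : Set Γ) (P : Fin r → ℕ),
    (∀ i, (P i).Prime ∧ Y < P i ∧ P i ≤ Y ^ 3 ∧ (q : ℤ) ∣ (P i : ℤ) - 1) → Cube F S P →
    ((Ioc G (2 * G)).filter (fun p : ℕ => p.Prime ∧ (q : ℤ) ∣ (p : ℤ) - 1)).card * G ≤
      Y ^ C₃ * (2 ^ (r + 1 + 2 * R) * (Exc F S Y N).ncard) := by
  obtain ⟨k, hk⟩ : ∃ k : ℕ, k = 2 + 2 ^ r := ⟨_, rfl⟩
  obtain ⟨L, hL⟩ : ∃ L : ℕ, L = primorial (2 * k) := ⟨_, rfl⟩
  have hL0 : 0 < L := by rw [hL]; exact primorial_pos _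
  have hk2 : 2 ≤ 2 * k := by
    have : 1 ≤ 2 ^ r := Nat.one_le_two_pow
    omega
  have hL2 : 2 ≤ L := by
    rw [hL]
    exact Nat.le_of_dvd (primorial_pos _) ((Nat.prime_two.dvd_primorial_iff).2 hk2)
  obtain ⟨C₁, hC₁⟩ := pair r k L hk hL
  obtain ⟨C₂, hC₂⟩ := hcount r k L hk hL
  refine ⟨L ^ 2, C₁ + 6 * r + 3 * C₂ + 2, 2 + 2 * k + 8 * L ^ 2, by positivity, by omega, ?_⟩
  intro Y N G R hY hN hYGN hYG hNR Γ _ F hF S P hP hcube
  have hY2 : 2 ≤ Y := by omega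
  have hY1 : 1 ≤ Y := by omega
  have hqL : ∀ w : ℤ, ((L ^ 2 : ℕ) : ℤ) ∣ w ↔ (L : ℤ) ^ 2 ∣ w := by
    intro w; push_cast; rfl
  have hGpos : 0 < G := lt_of_lt_of_le (by positivity) hYG
  have hNpos : 0 < N := lt_of_lt_of_le (by positivity) hYGN
  have hYG' : Y ≤ G := by
    refine le_trans ?_ hYG
    calc Y = Y ^ 1 := (pow_one Y).symm
      _ ≤ _ := Nat.pow_le_pow_right hY1 (by omega)
  obtain ⟨x0, hx0, hy0⟩ := exists_x0 (2 * k) N hN
  obtain ⟨Q, hQ⟩ : ∃ Q : Finset ℕ, Q = (Ioc G (2 * G)).filter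
    (fun p : ℕ => p.Prime ∧ ((L ^ 2 : ℕ) : ℤ) ∣ (p : ℤ) - 1) := ⟨_, rfl⟩
  have hQm : ∀ g ∈ Q, G < g ∧ g ≤ 2 * G ∧ g.Prime ∧ (L : ℤ) ^ 2 ∣ (g : ℤ) - 1 := by
    intro g hg
    rw [hQ, mem_filter, mem_Ioc, hqL] at hg
    exact ⟨hg.1.1, hg.1.2, hg.2.1, hg.2.2⟩
  rw [← hQ]
  have hPL : ∀ i, (P i).Prime ∧ Y < P i ∧ (L : ℤ) ^ 2 ∣ (P i : ℤ) - 1 := fun i =>
    ⟨(hP i).1, (hP i).2.1, (hqL _).1 (hP i).2.2.2⟩
  have hprod1 : 1 ≤ ∏ i, P i :=
    Nat.one_le_iff_ne_zero.2 (prod_ne_zero_iff.2 fun i _ => (hP i).1.ne_zero)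
  have hYG3 : Y ^ (3 * C₂) ≤ G / L ^ 2 := by
    rw [Nat.le_div_iff_mul_le (by positivity)]
    refine le_trans ?_ hYG
    calc Y ^ (3 * C₂) * L ^ 2 ≤ Y ^ (3 * C₂) * Y ^ 1 :=
          Nat.mul_le_mul_left _ (by rw [pow_one]; omega)
      _ = Y ^ (3 * C₂ + 1) := by rw [pow_add]
      _ ≤ _ := Nat.pow_le_pow_right hY1 (by omega)
  -- the pairs
  have hpairs : ∀ gh ∈ Q.sigma (fun g => hset r L Y G (N - x0) P g), ∃ x ∈ Exc F S Y N,
      ∃ (A : Finset (Fin r)) (δ₁ δ₂ : ℕ), δ₁ ∣ x ∧ δ₂ ∣ N - x ∧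
      ((δ₁ = gh.1 ∧ (∏ i ∈ A, P i) * gh.1 = gh.2 + L * δ₂) ∨
        (δ₂ = gh.2 ∧ (∏ i ∈ A, P i) * gh.1 = gh.2 + L * δ₁)) := by
    rintro ⟨g, h⟩ hgh
    rw [mem_sigma] at hgh
    obtain ⟨hg, hh⟩ := hgh
    simp only at hg hh ⊢
    obtain ⟨hg1, hg2, hg3, hg4⟩ := hQm g hg
    rw [hset, mem_filter, mem_Icc] at hh
    obtain ⟨⟨hh1, hh2⟩, hh3, hh4, hh5⟩ := hh
    have hYY3 : Y ≤ Y ^ 3 := by
      calc Y = Y ^ 1 := (pow_one Y).symm
        _ ≤ _ := Nat.pow_le_pow_right hY1 (by omega)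
    refine hC₁ Y hY2 (by omega) N x0 (N - x0) (by ring) hx0 P hPL g h (by omega) (by omega)
      (Rough.prime hg3 (by omega)) (fun p hp hpY => hh4 p hp (hpY.trans hYY3)) hg4 hh3 ?_ hh5 ?_
      Γ F hF S hcube
    · refine IsCoprime.mul_right (IsCoprime.prod_right fun i _ => ?_) ?_
      · rw [Nat.isCoprime_iff_coprime, Nat.coprime_comm, (hP i).1.coprime_iff_not_dvd]
        intro hd
        exact hh4 (P i) (hP i).1 (hP i).2.2.1 (Int.natCast_dvd_natCast.2 hd)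
      · rw [Nat.isCoprime_iff_coprime, Nat.coprime_comm, hg3.coprime_iff_not_dvd]
        intro hd
        have := Nat.le_of_dvd (by omega) hd
        omega
    · have hM : ∏ i, P i ≤ Y ^ (3 * r) := prod_le_pow univ P Y hY1 fun i => (hP i).2.2.1
      have key : (Y ^ C₁ + 1) * ((∏ i, P i) * g * L ^ 2) * ((∏ i, P i) * g) < L * N := by
        calc (Y ^ C₁ + 1) * ((∏ i, P i) * g * L ^ 2) * ((∏ i, P i) * g)
            ≤ (Y ^ C₁ + Y ^ C₁) * (Y ^ (3 * r) * (2 * G) * L ^ 2) * (Y ^ (3 * r) * (2 * G)) := by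
              gcongr
              exact Nat.one_le_pow _ _ (by omega)
          _ = (8 * L ^ 2) * (Y ^ (C₁ + 6 * r) * G ^ 2) := by ring
          _ ≤ Y ^ (3 * C₂ + 2) * (Y ^ (C₁ + 6 * r) * G ^ 2) := by
              apply Nat.mul_le_mul_right
              calc 8 * L ^ 2 ≤ Y := by omega
                _ = Y ^ 1 := (pow_one Y).symm
                _ ≤ _ := Nat.pow_le_pow_right hY1 (by omega)
          _ = Y ^ (C₁ + 6 * r + 3 * C₂ + 2) * G ^ 2 := by ring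
          _ ≤ N := hYGN
          _ < L * N := by nlinarith
      exact_mod_cast key
  choose! xf hxf Af δ₁ δ₂ hδ₁ hδ₂ hor using hpairs
  obtain ⟨E, hE⟩ : ∃ E : Finset ℕ, ∀ n, n ∈ E ↔ n ∈ Exc F S Y N :=
    ⟨(Exc_finite F S Y N).toFinset, fun n => Set.Finite.mem_toFinset _⟩
  have hEcard : (Exc F S Y N).ncard = E.card := by
    rw [← Set.ncard_coe_finset]
    congr 1
    ext n
    rw [mem_coe, hE]
  have hprod : ∀ A : Finset (Fin r), 0 < (∏ i ∈ A, P i) := fun A =>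
    Nat.pos_of_ne_zero (prod_ne_zero_iff.2 fun i _ => (hP i).1.ne_zero)
  have hinjφ : Set.InjOn (fun gh : (Σ _ : ℕ, ℕ) => ((⟨xf gh, (δ₁ gh, δ₂ gh)⟩ : Σ _ : ℕ, ℕ × ℕ),
      (Af gh, decide (δ₁ gh = gh.1 ∧ (∏ i ∈ Af gh, P i) * gh.1 = gh.2 + L * δ₂ gh))))
      (Q.sigma (fun g => hset r L Y G (N - x0) P g) : Finset (Σ _ : ℕ, ℕ)) := by
    intro u hu v hv heq
    rw [mem_coe] at hu hv
    simp only [Prod.mk.injEq, Sigma.mk.injEq, heq_eq_eq] at heq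
    obtain ⟨⟨-, hd1, hd2⟩, hA, hτ⟩ := heq
    by_cases hc : δ₁ u = u.1 ∧ (∏ i ∈ Af u, P i) * u.1 = u.2 + L * δ₂ u
    · have hc' : δ₁ v = v.1 ∧ (∏ i ∈ Af v, P i) * v.1 = v.2 + L * δ₂ v := by
        rw [decide_eq_true hc] at hτ
        exact of_decide_eq_true hτ.symm
      have e1 : u.1 = v.1 := by rw [← hc.1, ← hc'.1, hd1]
      have e2 : u.2 = v.2 := by
        have h3 := hc.2
        have h4 := hc'.2
        rw [← hA, ← hd2, ← e1] at h4
        omega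
      exact Sigma.ext e1 (heq_of_eq e2)
    · have hc' : ¬ (δ₁ v = v.1 ∧ (∏ i ∈ Af v, P i) * v.1 = v.2 + L * δ₂ v) := by
        rw [decide_eq_false hc] at hτ
        exact of_decide_eq_false hτ.symm
      have h3 := (hor u hu).resolve_left hc
      have h4 := (hor v hv).resolve_left hc'
      have e2 : u.2 = v.2 := by rw [← h3.1, ← h4.1, hd2]
      have e1 : u.1 = v.1 := by
        have h5 := h3.2
        have h6 := h4.2
        rw [← hA, ← hd1, ← e2, ← h5] at h6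
        exact (Nat.eq_of_mul_eq_mul_left (hprod _) h6).symm
      exact Sigma.ext e1 (heq_of_eq e2)
  have hmaps : ∀ gh ∈ Q.sigma (fun g => hset r L Y G (N - x0) P g),
      (fun gh : (Σ _ : ℕ, ℕ) => ((⟨xf gh, (δ₁ gh, δ₂ gh)⟩ : Σ _ : ℕ, ℕ × ℕ),
      (Af gh, decide (δ₁ gh = gh.1 ∧ (∏ i ∈ Af gh, P i) * gh.1 = gh.2 + L * δ₂ gh)))) gh ∈
      (E.sigma (fun x => x.divisors ×ˢ (N - x).divisors)) ×ˢ
        (univ : Finset (Finset (Fin r) × Bool)) := by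
    intro gh hgh
    have h1 := hxf gh hgh
    simp only [mem_product, mem_sigma, mem_univ, and_true]
    refine ⟨(hE _).2 h1, Nat.mem_divisors.2 ⟨hδ₁ gh hgh, ?_⟩,
      Nat.mem_divisors.2 ⟨hδ₂ gh hgh, ?_⟩⟩
    · have := h1.1; omega
    · have := h1.2.1; omega
  have hcard := card_le_card_of_injOn _ hmaps hinjφ
  have hdiv : ∑ x ∈ E, (x.divisors ×ˢ (N - x).divisors).card ≤ ∑ x ∈ E, 2 ^ (2 * R) := by
    apply sum_le_sum
    intro x hx
    obtain ⟨hx1, hx2, hx3, hx4, -⟩ := (hE x).1 hx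
    rw [card_product, two_mul, pow_add]
    apply Nat.mul_le_mul
    · refine (card_divisors_le _ (by omega)).trans (Nat.pow_le_pow_right (by norm_num) ?_)
      exact cardFactors_le hY1 (by omega) hx3 (by omega)
    · refine (card_divisors_le _ (by omega)).trans (Nat.pow_le_pow_right (by norm_num) ?_)
      exact cardFactors_le hY1 (by omega) hx4 (by omega)
  have hcardu : (univ : Finset (Finset (Fin r) × Bool)).card = 2 ^ (r + 1) := by
    rw [card_univ]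
    simp [pow_succ]
  have hlow : Q.card * G ≤ Y ^ (3 * C₂ + 1) *
      (Q.sigma (fun g => hset r L Y G (N - x0) P g)).card := by
    rw [card_sigma, mul_sum, card_eq_sum_ones, sum_mul]
    apply sum_le_sum
    intro g hg
    obtain ⟨hg1, hg2, hg3, hg4⟩ := hQm g hg
    have h1 := hC₂ Y hY2 (N - x0) hy0 P (fun i => ⟨(hPL i).1, (hPL i).2.2⟩) G g hg1 hg4 hYG3
    have h2 : 1 ≤ G / L ^ 2 := le_trans (Nat.one_le_pow _ _ (by omega)) hYG3
    have h3 : G < L ^ 2 * (G / L ^ 2 + 1) := Nat.lt_mul_div_succ G (by positivity)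
    have h4 : L ^ 2 * (G / L ^ 2 + 1) ≤ 2 * L ^ 2 * (G / L ^ 2) := by
      have : G / L ^ 2 + 1 ≤ 2 * (G / L ^ 2) := by omega
      calc L ^ 2 * (G / L ^ 2 + 1) ≤ L ^ 2 * (2 * (G / L ^ 2)) := Nat.mul_le_mul_left _ this
        _ = _ := by ring
    calc 1 * G ≤ 2 * L ^ 2 * (G / L ^ 2) := by omega
      _ ≤ Y * (G / L ^ 2) := Nat.mul_le_mul_right _ (by omega)
      _ ≤ Y * (Y ^ (3 * C₂) * (hset r L Y G (N - x0) P g).card) := Nat.mul_le_mul_left _ h1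
      _ = Y ^ (3 * C₂ + 1) * (hset r L Y G (N - x0) P g).card := by rw [pow_succ]; ring
  rw [hEcard]
  have hcs : (E.sigma (fun x => x.divisors ×ˢ (N - x).divisors)).card =
      ∑ x ∈ E, (x.divisors ×ˢ (N - x).divisors).card := card_sigma _ _
  rw [card_product, hcs, hcardu] at hcard
  rw [sum_const, smul_eq_mul] at hdiv
  calc Q.card * G ≤ Y ^ (3 * C₂ + 1) *
        (Q.sigma (fun g => hset r L Y G (N - x0) P g)).card := hlow
    _ ≤ Y ^ (3 * C₂ + 1) * ((E.card * 2 ^ (2 * R)) * 2 ^ (r + 1)) := by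
        apply Nat.mul_le_mul_left
        exact hcard.trans (Nat.mul_le_mul_right _ hdiv)
    _ = Y ^ (3 * C₂ + 1) * (2 ^ (r + 1 + 2 * R) * E.card) := by rw [pow_add]; ring
    _ ≤ Y ^ (C₁ + 6 * r + 3 * C₂ + 2) * (2 ^ (r + 1 + 2 * R) * E.card) := by
        apply Nat.mul_le_mul_right
        exact Nat.pow_le_pow_right hY1 (by omega)

end Pool.Agent.TH423.GB
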