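import Pool.Agent.H661R3.OP.SV
import Pool.Agent.TH423.DS.Arith
import Pool.Agent.TH423.DS.Member

/-!
The family of representations `N = x + y` linked by
`L (x + y) = u v - g h` with `x = u (v - g) / L`, `y = g (u - h) / L`.
-/

set_option autoImplicit false

open Finset

namespace Pool.Agent.TH423.GB

open Pool.Agent.H661R3.OP (Rough)
open Pool.Agent.TH423.DS (isCoprime_of_rough Rough.mul Rough.prod Rough.prime)

/-- the sieve in the last variable -/
theorem fam (k : ℕ) (L : ℤ) (hL2 : 2 ≤ L) (hLd : ∀ p : ℕ, p.Prime → ((p : ℤ) ∣ L ↔ p ≤ 2 * k)) :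
    ∃ C : ℕ, ∀ (ι : Type) [Fintype ι], 2 + Fintype.card ι ≤ k →
    ∀ (Y : ℕ), 2 ≤ Y → 2 * k ≤ Y → ∀ (N x0 y0 : ℤ), x0 + y0 = N →
    (∀ p : ℕ, p.Prime → p ≤ 2 * k → ¬ (p : ℤ) ∣ x0) →
    ∀ (M g h : ℤ) (a b d : ι → ℤ), 0 < M → 0 < g → 0 < h → Rough Y M → Rough Y g → Rough Y h →
    (∀ A, 0 < a A ∧ 0 < b A ∧ a A * b A = M) → (∀ A, L ^ 2 ∣ a A - 1) → (∀ A, L ^ 2 ∣ b A - 1) →
    L ^ 2 ∣ M - 1 → L ^ 2 ∣ g - 1 → L ^ 2 ∣ h - (1 - L * y0) → IsCoprime h (M * g) →
    (∀ A, a A * g - h = L * d A ∧ 0 < d A ∧ Rough Y (d A)) →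
    (Y ^ C + 1) * (M * g * L ^ 2) * (M * g) < L * N →
    ∃ g' h' : ℤ, 0 < g' ∧ 0 < h' ∧ Rough Y g' ∧ Rough Y h' ∧ M * g * h' - g' * h = L * N ∧
      ∀ A, ∃ e : ℤ, b A * h' - g' = L * e ∧ 0 < e ∧ Rough Y e := by
  classical
  obtain ⟨C, hC⟩ := Pool.Agent.H661R3.OP.t_SV k
  refine ⟨C, ?_⟩
  intro ι _ hk Y hY hkY N x0 y0 hxy hx0 M g h a b d hM hg hh hMr hgr hhr hab ha hb hM1 hg1 hh1 hcop
    hd hsize
  have hL0 : 0 < L := by linarith
  have hMg : 0 < M * g := by positivity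
  have hMgr : Rough Y (M * g) := Rough.mul hMr hgr
  have hcopL : IsCoprime (M * g) (L ^ 2) := isCoprime_of_rough hMgr fun p hp h => by
    have := (Nat.prime_iff_prime_int.1 hp).dvd_of_dvd_pow h
    exact ((hLd p hp).1 this).trans hkY
  -- the starting point
  obtain ⟨x, hx1, hx2⟩ : ∃ x : ℤ, M * g ∣ L * N + x * h ∧ L ^ 2 ∣ x - 1 := by
    obtain ⟨α, β, hαβ⟩ := hcop
    obtain ⟨γ, δ, hγδ⟩ := hcopL
    refine ⟨γ * (M * g) * 1 + δ * L ^ 2 * (-(α * (L * N))), ?_, ?_⟩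
    · -- δ L² ≡ 1 mod M g
      refine ⟨γ * h + γ * α * (L * N) * h + β * (L * N), ?_⟩
      linear_combination (-(h * α * (L * N))) * hγδ + (L * N) * (-hαβ)
    · refine ⟨-(δ * α * (L * N)) - δ, ?_⟩
      linear_combination hγδ
  have hm : 0 < M * g * L ^ 2 := by positivity
  obtain ⟨g0, hg0x, hg0lo, hg0hi⟩ : ∃ g0 : ℤ, M * g * L ^ 2 ∣ g0 - x ∧ 0 ≤ g0 ∧
      g0 < M * g * L ^ 2 := by
    refine ⟨x % (M * g * L ^ 2), ⟨- (x / (M * g * L ^ 2)), ?_⟩, Int.emod_nonneg x hm.ne',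
      Int.emod_lt_of_pos x hm⟩
    have := Int.emod_add_mul_ediv x (M * g * L ^ 2)
    linear_combination this
  have hg0L : L ^ 2 ∣ g0 - 1 := by
    have h1 : L ^ 2 ∣ g0 - x := (Dvd.intro_left _ rfl).trans hg0x
    have h2 : g0 - 1 = (g0 - x) + (x - 1) := by ring
    rw [h2]
    exact dvd_add h1 hx2
  have hg0pos : 0 < g0 := by
    rcases hg0lo.lt_or_eq with h | h
    · exact h
    · exfalso
      rw [← h] at hg0L
      have h1 : L ^ 2 ∣ 1 := by
        have := (dvd_neg).2 hg0L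
        simpa using this
      have := Int.le_of_dvd one_pos h1
      nlinarith
  obtain ⟨h0, hh0⟩ : M * g ∣ L * N + g0 * h := by
    have h1 : M * g ∣ g0 - x := (Dvd.intro _ rfl).trans hg0x
    have h2 : L * N + g0 * h = (L * N + x * h) + (g0 - x) * h := by ring
    rw [h2]
    exact dvd_add hx1 (h1.mul_right _)
  -- h0 ≡ 1 + L x0
  have hMg1 : L ^ 2 ∣ M * g - 1 := by
    have : M * g - 1 = (M - 1) * g + (g - 1) := by ring
    rw [this]
    exact dvd_add (hM1.mul_right _) hg1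
  have hh0L : L ^ 2 ∣ h0 - (1 + L * x0) := by
    have e1 : h0 - (1 + L * x0) = -((M * g - 1) * h0) + (g0 - 1) * h + (h - (1 - L * y0)) +
        (M * g * h0 - (L * N + g0 * h)) + L * (N - x0 - y0) := by ring
    rw [e1, ← hh0, sub_self, show N - x0 - y0 = 0 by linarith]
    simp only [mul_zero, add_zero]
    exact dvd_add (dvd_add ((dvd_neg).2 (hMg1.mul_right _)) (hg0L.mul_right _)) hh1
  have he0 : ∀ A, ∃ z : ℤ, b A * h0 - g0 = L * (x0 + L * z) := by
    intro A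
    have h1 : L ^ 2 ∣ b A * h0 - g0 - L * x0 := by
      have : b A * h0 - g0 - L * x0 = (b A - 1) * h0 + (h0 - (1 + L * x0)) - (g0 - 1) := by ring
      rw [this]
      exact dvd_sub (dvd_add ((hb A).mul_right _) hh0L) hg0L
    obtain ⟨z, hz⟩ := h1
    exact ⟨z, by linear_combination hz⟩
  choose z hz using he0
  -- the forms
  have hLnot : ∀ p : ℕ, p.Prime → p ≤ Y → ∀ w : ℤ, Rough Y w → (p : ℤ) ∣ w * L ^ 2 →
      (p : ℤ) ∣ L := by
    intro p hp hpY w hw hdvd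
    have hpp := Nat.prime_iff_prime_int.1 hp
    rcases hpp.dvd_or_dvd hdvd with h | h
    · exact absurd h (hw p hp hpY)
    · exact hpp.dvd_of_dvd_pow h
  have hone : ∀ p : ℕ, p.Prime → ∀ w : ℤ, (p : ℤ) ∣ L → (p : ℤ) ∣ w - 1 → ¬ (p : ℤ) ∣ w := by
    intro p hp w _ h1 h2
    have h3 : (p : ℤ) ∣ 1 := by
      have := dvd_sub h2 h1
      simpa using this
    have := Int.le_of_dvd one_pos h3
    have := hp.two_le
    omega
  have hbr : ∀ A, Rough Y (b A) := by
    intro A p hp hpY hd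
    apply hMr p hp hpY
    rw [← (hab A).2.2]
    exact hd.mul_left _
  have hsv := hC (Unit ⊕ Unit ⊕ ι) (by simp; omega)
    (Sum.elim (fun _ => M * g * L ^ 2) (Sum.elim (fun _ => h * L ^ 2)
      (fun A => -(b A * d A) * L ^ 2)))
    (Sum.elim (fun _ => g0) (Sum.elim (fun _ => h0) (fun A => x0 + L * z A))) Y hY
    (by
      intro i p hp hpY hdvd
      rcases i with _ | _ | A
      · have h1 := hLnot p hp hpY _ hMgr hdvd
        exact hone p hp g0 h1 ((h1.trans (Dvd.intro_left _ (by ring : L * L = L ^ 2))).trans hg0L)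
      · have h1 := hLnot p hp hpY _ hhr hdvd
        refine hone p hp h0 h1 ?_
        have h2 := (h1.trans (Dvd.intro_left _ (by ring : L * L = L ^ 2))).trans hh0L
        have : h0 - 1 = (h0 - (1 + L * x0)) + L * x0 := by ring
        rw [this]
        exact dvd_add h2 (h1.mul_right _)
      · have h1 := hLnot p hp hpY (-(b A * d A)) (by
          intro p hp hpY hd'
          exact Rough.mul (hbr A) (hd A).2.2 p hp hpY ((dvd_neg).1 hd')) hdvd
        intro h2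
        apply hx0 p hp ((hLd p hp).1 h1)
        have : x0 = (x0 + L * z A) - L * z A := by ring
        rw [this]
        exact dvd_sub h2 (h1.mul_right _))
    (by
      intro i p hp hpk
      have h1 := (hLd p hp).2 hpk
      have h2 : (p : ℤ) ∣ L ^ 2 := h1.trans (Dvd.intro_left _ (by ring : L * L = L ^ 2))
      rcases i with _ | _ | A
      · exact h2.mul_left _
      · exact h2.mul_left _
      · exact h2.mul_left _)
    0 (Y ^ C) le_rfl
  have hpos : 0 < Y ^ C := by positivity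
  have hne : ({t : ℤ | 0 ≤ t ∧ t < 0 + (Y ^ C : ℕ) ∧ ∀ i, Rough Y ((Sum.elim
      (fun _ => M * g * L ^ 2) (Sum.elim (fun _ => h * L ^ 2)
      (fun A => -(b A * d A) * L ^ 2)) : Unit ⊕ Unit ⊕ ι → ℤ) i * t +
      (Sum.elim (fun _ => g0) (Sum.elim (fun _ => h0) (fun A => x0 + L * z A)) :
        Unit ⊕ Unit ⊕ ι → ℤ) i)}).Nonempty := by
    by_contra hcon
    rw [Set.not_nonempty_iff_eq_empty] at hcon
    rw [hcon, Set.ncard_empty, mul_zero] at hsv
    omega
  obtain ⟨t, ht0, htT, htr⟩ := hne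
  have h1 := htr (Sum.inl ())
  have h2 := htr (Sum.inr (Sum.inl ()))
  have h3 := fun A => htr (Sum.inr (Sum.inr A))
  simp only [Sum.elim_inl, Sum.elim_inr] at h1 h2 h3
  push_cast at htT
  have ht1 : t ≤ (Y : ℤ) ^ C := by linarith
  have hg' : 0 < M * g * L ^ 2 * t + g0 := by positivity
  have hg'2 : M * g * L ^ 2 * t + g0 < (Y ^ C + 1) * (M * g * L ^ 2) := by nlinarith
  have hEq : M * g * (h * L ^ 2 * t + h0) - (M * g * L ^ 2 * t + g0) * h = L * N := by
    linear_combination -hh0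
  have hh' : M * g * L ^ 2 * t + g0 < h * L ^ 2 * t + h0 := by
    by_contra hcon
    push Not at hcon
    have h4 : M * g * (h * L ^ 2 * t + h0) ≤ M * g * (M * g * L ^ 2 * t + g0) :=
      mul_le_mul_of_nonneg_left hcon hMg.le
    have h5 : M * g * (M * g * L ^ 2 * t + g0) ≤ M * g * ((Y ^ C + 1) * (M * g * L ^ 2)) :=
      mul_le_mul_of_nonneg_left hg'2.le hMg.le
    have h6 : 0 < (M * g * L ^ 2 * t + g0) * h := by positivity
    linarith
  refine ⟨M * g * L ^ 2 * t + g0, h * L ^ 2 * t + h0, hg', by linarith, h1, h2, hEq, fun A => ?_⟩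
  refine ⟨-(b A * d A) * L ^ 2 * t + (x0 + L * z A), ?_, ?_, h3 A⟩
  · have h4 := (hd A).1
    have h5 := hz A
    have h6 := (hab A).2.2
    linear_combination h5 - L ^ 2 * t * b A * h4 + (g * L ^ 2 * t) * h6
  · have h4 : b A * (h * L ^ 2 * t + h0) - (M * g * L ^ 2 * t + g0) =
        L * (-(b A * d A) * L ^ 2 * t + (x0 + L * z A)) := by
      have h4 := (hd A).1
      have h5 := hz A
      have h6 := (hab A).2.2
      linear_combination h5 - L ^ 2 * t * b A * h4 + (g * L ^ 2 * t) * h6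
    have h7 : 0 < b A * (h * L ^ 2 * t + h0) - (M * g * L ^ 2 * t + g0) := by
      have h8 : 1 ≤ b A := (hab A).2.1
      have h9 : 0 < h * L ^ 2 * t + h0 := by linarith
      nlinarith
    rw [h4] at h7
    exact (mul_pos_iff_of_pos_left hL0).1 h7

end Pool.Agent.TH423.GB
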