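import Pool.Agent.TH423.GB.Count
import Pool.Agent.TH423.DS.Main

/-! The Goldbach theorem in terms of `N ^ δ`. -/

set_option autoImplicit false

open Finset Filter Topology

namespace Pool.Agent.TH423.GB

open Pool.Agent.H661R3.OP (Rough)
open Pool.Agent.TH423.DS (Cube primes_count AlmostPrime almostPrime_of_rough)

theorem main (r : ℕ) (ε : ℝ) (hε : 0 < ε) :
    ∃ q R N₀ : ℕ, ∃ δ : ℝ, 0 < q ∧ 0 < δ ∧ ∀ N : ℕ, N₀ ≤ N →
    (∃ P : Fin r → ℕ, Function.Injective P ∧ ∀ i, (P i).Prime ∧ (N : ℝ) ^ δ < P i ∧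
      (P i : ℝ) ≤ (N : ℝ) ^ (2 * δ) ∧ (q : ℤ) ∣ (P i : ℤ) - 1) ∧
    (Even N → ∀ (Γ : Type) [AddCommGroup Γ] (F : ℕ → Γ),
    (∀ x y : ℕ, x ≠ 0 → y ≠ 0 → F (x * y) = F x + F y) → ∀ (S : Set Γ) (P : Fin r → ℕ),
    (∀ i, (P i).Prime ∧ (N : ℝ) ^ δ < P i ∧
      (P i : ℝ) ≤ (N : ℝ) ^ (2 * δ) ∧ (q : ℤ) ∣ (P i : ℤ) - 1) → Cube F S P →
    (N : ℝ) ^ (1 - ε) ≤ ({x : ℕ | 1 ≤ x ∧ x < N ∧ AlmostPrime ((N : ℝ) ^ δ) R (x : ℤ) ∧
      AlmostPrime ((N : ℝ) ^ δ) R ((N - x : ℕ) : ℤ) ∧ F (x * (N - x)) ∉ S}.ncard : ℝ)) := by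
  classical
  obtain ⟨q, C₃, Y₀, hq, hY₀, hcount⟩ := count r
  obtain ⟨ε', hε'⟩ : ∃ ε' : ℝ, ε' = min ε (1 / 2) := ⟨_, rfl⟩
  have hε'0 : 0 < ε' := by rw [hε']; positivity
  have hε'ε : ε' ≤ ε := by rw [hε']; exact min_le_left _ _
  have hε'2 : ε' ≤ 1 / 2 := by rw [hε']; exact min_le_right _ _
  obtain ⟨Z₀, hZ₀⟩ := primes_count q hq (ε' / 4) (by positivity)
  obtain ⟨Z₁, hZ₁⟩ := primes_count q hq (1 / 2) (by positivity)
  obtain ⟨δ, hδ⟩ : ∃ δ : ℝ, δ = ε' / (16 * (C₃ + 4)) := ⟨_, rfl⟩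
  have hC4 : (0 : ℝ) < (C₃ : ℝ) + 4 := by positivity
  have hδ0 : 0 < δ := by rw [hδ]; positivity
  have hδC : δ * (C₃ + 4) = ε' / 16 := by rw [hδ]; field_simp
  have hδC' : δ * C₃ ≤ ε' / 16 := by rw [← hδC]; nlinarith
  have hδC0 : 0 ≤ δ * C₃ := by positivity
  obtain ⟨t, ht⟩ := exists_nat_ge (2 / δ)
  have htδ : 2 ≤ t * δ := by rwa [div_le_iff₀ hδ0] at ht
  -- all the largeness conditions
  have hn : Tendsto (fun X : ℕ => (X : ℝ)) atTop atTop := tendsto_natCast_atTop_atTop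
  have hn1 : Tendsto (fun X : ℕ => (X : ℝ) ^ (δ / 2)) atTop atTop :=
    (tendsto_rpow_atTop (by positivity)).comp hn
  have hn2 : Tendsto (fun X : ℕ => (X : ℝ) ^ (ε' / 2)) atTop atTop :=
    (tendsto_rpow_atTop (by positivity)).comp hn
  have hev := ((hn1.eventually (eventually_ge_atTop ((Y₀ + Z₀ + Z₁ + r ^ 2 + 8 : ℕ) : ℝ))).and
    (hn2.eventually (eventually_ge_atTop (16 * (2 : ℝ) ^ (r + 1 + 2 * t))))).and
    (eventually_ge_atTop 4)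
  obtain ⟨N₀, hN₀⟩ := eventually_atTop.1 hev
  refine ⟨q, t, N₀, δ, hq, hδ0, fun N hNN => ?_⟩
  obtain ⟨⟨hA, hB⟩, hN4⟩ := hN₀ N hNN
  have hX2 : (4 : ℝ) ≤ N := by exact_mod_cast hN4
  have hXp : (0 : ℝ) < N := by linarith
  obtain ⟨Y, hY⟩ : ∃ Y : ℕ, Y = ⌊(N : ℝ) ^ δ⌋₊ := ⟨_, rfl⟩
  have hsq : (N : ℝ) ^ (δ / 2) * (N : ℝ) ^ (δ / 2) = (N : ℝ) ^ δ := by
    rw [← Real.rpow_add hXp]; congr 1; ring
  obtain ⟨x, hx⟩ : ∃ x : ℝ, x = (N : ℝ) ^ (δ / 2) := ⟨_, rfl⟩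
  rw [← hx] at hsq hA
  have hYle : (Y : ℝ) ≤ (N : ℝ) ^ δ := by
    rw [hY]; exact Nat.floor_le (by positivity)
  have hYlt : (N : ℝ) ^ δ < Y + 1 := by
    rw [hY]; exact Nat.lt_floor_add_one _
  have hA4 : (8 : ℝ) ≤ x := by
    refine le_trans ?_ hA
    push_cast
    have : (0 : ℝ) ≤ (Y₀ : ℝ) + Z₀ + Z₁ + r ^ 2 := by positivity
    linarith
  have hxY : x ≤ Y := by
    have : x ≤ x * x - 1 := by nlinarith
    linarith
  have hYN : Y₀ + Z₀ + Z₁ + r ^ 2 + 8 ≤ Y := by exact_mod_cast hA.trans hxY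
  have hY4 : (8 : ℝ) ≤ Y := hA4.trans hxY
  -- primes
  have hP2 : ∀ p : ℕ, (p : ℝ) ≤ (N : ℝ) ^ (2 * δ) → p ≤ Y ^ 3 := by
    intro p hp
    have h1 : (N : ℝ) ^ (2 * δ) = ((N : ℝ) ^ δ) ^ 2 := by
      rw [← Real.rpow_natCast, ← Real.rpow_mul hXp.le]
      congr 1
      push_cast
      ring
    have h2 : ((N : ℝ) ^ δ) ^ 2 ≤ ((Y : ℝ) + 1) ^ 2 :=
      pow_le_pow_left₀ (by positivity) hYlt.le 2
    have h3 : ((Y : ℝ) + 1) ^ 2 ≤ (Y : ℝ) ^ 3 := by nlinarith [sq_nonneg ((Y : ℝ) - 4)]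
    have h4 : (p : ℝ) ≤ (Y : ℝ) ^ 3 := by linarith
    exact_mod_cast h4
  refine ⟨?_, ?_⟩
  · have h1 := hZ₁ Y (by omega)
    have h2 : (r : ℝ) ≤ (Y : ℝ) ^ (1 - 1 / 2 : ℝ) := by
      rw [show (1 - 1 / 2 : ℝ) = 1 / 2 by norm_num, ← Real.sqrt_eq_rpow]
      apply Real.le_sqrt_of_sq_le
      exact_mod_cast (by omega : r ^ 2 ≤ Y)
    have h3 : r ≤ ((Finset.Ioc Y (2 * Y)).filter
        (fun p : ℕ => p.Prime ∧ (q : ℤ) ∣ (p : ℤ) - 1)).card := by exact_mod_cast h2.trans h1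
    refine ⟨Finset.orderEmbOfCardLe _ h3, (Finset.orderEmbOfCardLe _ h3).injective, fun i => ?_⟩
    have h4 := Finset.orderEmbOfCardLe_mem _ h3 i
    rw [mem_filter, mem_Ioc] at h4
    refine ⟨h4.2.1, ?_, ?_, h4.2.2⟩
    · have : ((Y : ℝ) + 1) ≤ (Finset.orderEmbOfCardLe _ h3 i : ℕ) := by exact_mod_cast h4.1.1
      linarith
    · have h5 : ((Finset.orderEmbOfCardLe _ h3 i : ℕ) : ℝ) ≤ 2 * Y := by exact_mod_cast h4.1.2
      have h6 : (N : ℝ) ^ (2 * δ) = (N : ℝ) ^ δ * (N : ℝ) ^ δ := by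
        rw [← Real.rpow_add hXp]; congr 1; ring
      rw [h6]
      nlinarith
  · intro hNe Γ _ F hF S P hP hcube
    have hNt : N ≤ Y ^ t := by
      have h1 : (N : ℝ) ≤ (Y : ℝ) ^ t := by
        calc (N : ℝ) = (N : ℝ) ^ (1 : ℝ) := (Real.rpow_one _).symm
          _ ≤ (N : ℝ) ^ (δ / 2 * t) := by
              apply Real.rpow_le_rpow_of_exponent_le (by linarith)
              nlinarith
          _ = x ^ t := by rw [Real.rpow_mul hXp.le, Real.rpow_natCast, hx]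
          _ ≤ (Y : ℝ) ^ t := pow_le_pow_left₀ (by linarith) hxY t
      exact_mod_cast h1
    have hNt1 : N < Y ^ (t + 1) := by
      refine lt_of_le_of_lt hNt ?_
      exact Nat.pow_lt_pow_right (by omega) (by omega)
    have hYpos : 0 < Y ^ C₃ := by
      have : 0 < Y := by omega
      positivity
    -- the size of `G`
    obtain ⟨s, hs⟩ : ∃ s : ℕ, s = Nat.sqrt N := ⟨_, rfl⟩
    obtain ⟨G, hG⟩ : ∃ G : ℕ, G = s / Y ^ C₃ := ⟨_, rfl⟩
    have hslow : (N : ℝ) ^ (1 / 2 : ℝ) / 2 ≤ s := by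
      have h1 : N < (s + 1) ^ 2 := by rw [hs, sq]; exact Nat.lt_succ_sqrt N
      have h2 : (N : ℝ) < ((s : ℝ) + 1) ^ 2 := by exact_mod_cast h1
      rw [← Real.sqrt_eq_rpow]
      have h3 : Real.sqrt N ≤ s + 1 := Real.sqrt_le_iff.2 ⟨by positivity, h2.le⟩
      have h4 : (2 : ℝ) ≤ Real.sqrt N := Real.le_sqrt_of_sq_le (by linarith)
      linarith
    have hYC : (Y : ℝ) ^ C₃ ≤ (N : ℝ) ^ (δ * C₃) := by
      rw [Real.rpow_mul hXp.le, Real.rpow_natCast]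
      exact pow_le_pow_left₀ (by positivity) hYle _
    have hGlow : (N : ℝ) ^ (1 / 2 - δ * C₃) / 4 ≤ G ∧ Y ^ (C₃ + 1) ≤ G := by
      have h1 : s < Y ^ C₃ * (G + 1) := by
        rw [hG]
        exact Nat.lt_mul_div_succ s hYpos
      have h2 : (s : ℝ) < (Y : ℝ) ^ C₃ * (G + 1) := by exact_mod_cast h1
      have h7 : 0 < (N : ℝ) ^ (δ * C₃) := by positivity
      have h6 : (N : ℝ) ^ (1 / 2 - δ * C₃) * (N : ℝ) ^ (δ * C₃) = (N : ℝ) ^ (1 / 2 : ℝ) := by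
        rw [← Real.rpow_add hXp]
        simp
      have hb : Y ^ (C₃ + 1) ≤ G := by
        rw [hG, Nat.le_div_iff_mul_le hYpos, ← pow_add, hs, Nat.le_sqrt']
        have h8 : ((Y : ℝ) ^ (C₃ + 1 + C₃)) ^ 2 ≤ N := by
          calc ((Y : ℝ) ^ (C₃ + 1 + C₃)) ^ 2 = (Y : ℝ) ^ (4 * C₃ + 2) := by ring
            _ ≤ ((N : ℝ) ^ δ) ^ (4 * C₃ + 2) := pow_le_pow_left₀ (by positivity) hYle _
            _ = (N : ℝ) ^ (δ * (4 * C₃ + 2)) := by
                rw [← Real.rpow_natCast, ← Real.rpow_mul hXp.le]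
                push_cast
                ring_nf
            _ ≤ (N : ℝ) ^ (1 : ℝ) := by
                apply Real.rpow_le_rpow_of_exponent_le (by linarith)
                nlinarith
            _ = N := Real.rpow_one _
        exact_mod_cast h8
      refine ⟨?_, hb⟩
      have h9 : (1 : ℝ) ≤ G := by
        have : 1 ≤ G := le_trans (Nat.one_le_pow _ _ (by omega)) hb
        exact_mod_cast this
      have h10 : (N : ℝ) ^ (1 / 2 : ℝ) ≤ (N : ℝ) ^ (δ * C₃) * (4 * G) := by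
        calc (N : ℝ) ^ (1 / 2 : ℝ) ≤ 2 * s := by linarith
          _ ≤ 2 * ((Y : ℝ) ^ C₃ * (G + 1)) := by linarith
          _ ≤ 2 * ((N : ℝ) ^ (δ * C₃) * (G + 1)) := by
              have := mul_le_mul_of_nonneg_right hYC (by linarith : (0 : ℝ) ≤ G + 1)
              linarith
          _ ≤ (N : ℝ) ^ (δ * C₃) * (4 * G) := by nlinarith
      rw [div_le_iff₀ (by norm_num)]
      by_contra hcon
      push Not at hcon
      have := mul_lt_mul_of_pos_right hcon h7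
      nlinarith
    obtain ⟨hGlow, hYG⟩ := hGlow
    have hYGN : Y ^ C₃ * G ^ 2 ≤ N := by
      have h1 : Y ^ C₃ * G ≤ s := by rw [hG]; exact Nat.mul_div_le _ _
      have h2 : G ≤ s := by
        refine le_trans ?_ h1
        exact Nat.le_mul_of_pos_left _ hYpos
      calc Y ^ C₃ * G ^ 2 = (Y ^ C₃ * G) * G := by ring
        _ ≤ s * s := Nat.mul_le_mul h1 h2
        _ ≤ N := by rw [hs]; exact Nat.sqrt_le N
    have hmain := hcount Y N G t (by omega) hNe hYGN hYG hNt1 Γ F hF S P (fun i => by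
      obtain ⟨h1, h2, h3, h4⟩ := hP i
      refine ⟨h1, ?_, hP2 _ h3, h4⟩
      have : (Y : ℝ) < P i := lt_of_le_of_lt hYle h2
      exact_mod_cast this) hcube
    have hYG' : Y ≤ G := by
      refine le_trans ?_ hYG
      calc Y = Y ^ 1 := (pow_one Y).symm
        _ ≤ _ := Nat.pow_le_pow_right (by omega) (by omega)
    have hprimes := hZ₀ G (by omega)
    have hYz : (2 : ℤ) ≤ Y := by exact_mod_cast (by omega : 2 ≤ Y)
    have hsub : Exc F S Y N ⊆ {x : ℕ | 1 ≤ x ∧ x < N ∧ AlmostPrime ((N : ℝ) ^ δ) t (x : ℤ) ∧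
      AlmostPrime ((N : ℝ) ^ δ) t ((N - x : ℕ) : ℤ) ∧ F (x * (N - x)) ∉ S} := by
      rintro n ⟨h1, h2, h3, h4, h5⟩
      refine ⟨h1, h2, almostPrime_of_rough (by omega) hYlt h3 ?_,
        almostPrime_of_rough (by omega) hYlt h4 ?_, h5⟩
      · rw [abs_of_nonneg (by positivity)]
        exact_mod_cast (by omega : n < Y ^ (t + 1))
      · rw [abs_of_nonneg (by positivity)]
        exact_mod_cast (by omega : N - n < Y ^ (t + 1))
    have hfin : ({x : ℕ | 1 ≤ x ∧ x < N ∧ AlmostPrime ((N : ℝ) ^ δ) t (x : ℤ) ∧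
      AlmostPrime ((N : ℝ) ^ δ) t ((N - x : ℕ) : ℤ) ∧ F (x * (N - x)) ∉ S}).Finite :=
      (Set.finite_Iio N).subset fun n hn => hn.2.1
    have hle := Set.ncard_le_ncard hsub hfin
    refine le_trans ?_ (by exact_mod_cast hle : ((Exc F S Y N).ncard : ℝ) ≤ _)
    have hchain : (G : ℝ) ^ (1 - ε' / 4) * G ≤ (N : ℝ) ^ (δ * C₃) * ((2 : ℝ) ^ (r + 1 + 2 * t) *
        ((Exc F S Y N).ncard : ℝ)) := by
      calc (G : ℝ) ^ (1 - ε' / 4) * G ≤ (((Ioc G (2 * G)).filter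
            (fun p : ℕ => p.Prime ∧ (q : ℤ) ∣ (p : ℤ) - 1)).card : ℝ) * G :=
            mul_le_mul_of_nonneg_right hprimes (by positivity)
        _ ≤ (Y : ℝ) ^ C₃ * ((2 : ℝ) ^ (r + 1 + 2 * t) * ((Exc F S Y N).ncard : ℝ)) := by
            exact_mod_cast hmain
        _ ≤ _ := mul_le_mul_of_nonneg_right hYC (by positivity)
    -- the numbers
    have hG1 : 0 < (N : ℝ) ^ (1 / 2 - δ * C₃) / 4 := by positivity
    have h20 : ((N : ℝ) ^ (1 / 2 - δ * C₃) / 4) ^ (2 - ε' / 4) ≤ (G : ℝ) ^ (1 - ε' / 4) * G := by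
      have hGp : (0 : ℝ) < G := lt_of_lt_of_le hG1 hGlow
      calc ((N : ℝ) ^ (1 / 2 - δ * C₃) / 4) ^ (2 - ε' / 4) ≤ (G : ℝ) ^ (2 - ε' / 4) :=
            Real.rpow_le_rpow hG1.le hGlow (by linarith)
        _ = (G : ℝ) ^ (1 - ε' / 4) * G := by
            rw [show (2 - ε' / 4 : ℝ) = (1 - ε' / 4) + 1 by ring, Real.rpow_add hGp,
              Real.rpow_one]
    have h21 : (N : ℝ) ^ (1 - ε' / 4) / 16 ≤
        ((N : ℝ) ^ (1 / 2 - δ * C₃) / 4) ^ (2 - ε' / 4) := by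
      rw [Real.div_rpow (by positivity) (by norm_num), ← Real.rpow_mul hXp.le]
      have h10 : (4 : ℝ) ^ (2 - ε' / 4) ≤ 16 := by
        calc (4 : ℝ) ^ (2 - ε' / 4) ≤ (4 : ℝ) ^ (2 : ℝ) :=
              Real.rpow_le_rpow_of_exponent_le (by norm_num) (by linarith)
          _ = 16 := by norm_num
      have h11 : (N : ℝ) ^ (1 - ε' / 4) ≤ (N : ℝ) ^ ((1 / 2 - δ * C₃) * (2 - ε' / 4)) := by
        apply Real.rpow_le_rpow_of_exponent_le (by linarith)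
        nlinarith
      calc (N : ℝ) ^ (1 - ε' / 4) / 16 ≤ (N : ℝ) ^ ((1 / 2 - δ * C₃) * (2 - ε' / 4)) / 16 := by
            linarith
        _ ≤ (N : ℝ) ^ ((1 / 2 - δ * C₃) * (2 - ε' / 4)) / (4 : ℝ) ^ (2 - ε' / 4) :=
          div_le_div_of_nonneg_left (by positivity) (by positivity) h10
    have h22 : (N : ℝ) ^ (1 - ε' / 2) ≤ 16 * ((2 : ℝ) ^ (r + 1 + 2 * t) *
        ((Exc F S Y N).ncard : ℝ)) := by
      have h23 : (N : ℝ) ^ (1 - ε' / 2) * (N : ℝ) ^ (δ * C₃) ≤ (N : ℝ) ^ (1 - ε' / 4) := by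
        rw [← Real.rpow_add hXp]
        apply Real.rpow_le_rpow_of_exponent_le (by linarith)
        linarith
      have h24 : (N : ℝ) ^ (1 - ε' / 2) * (N : ℝ) ^ (δ * C₃) ≤
          (16 * ((2 : ℝ) ^ (r + 1 + 2 * t) * ((Exc F S Y N).ncard : ℝ))) *
            (N : ℝ) ^ (δ * C₃) := by
        linarith
      exact le_of_mul_le_mul_right h24 (by positivity)
    have h25 : (N : ℝ) ^ (1 - ε) * (16 * (2 : ℝ) ^ (r + 1 + 2 * t)) ≤ (N : ℝ) ^ (1 - ε' / 2) := by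
      calc (N : ℝ) ^ (1 - ε) * (16 * (2 : ℝ) ^ (r + 1 + 2 * t))
          ≤ (N : ℝ) ^ (1 - ε') * (N : ℝ) ^ (ε' / 2) := by
            apply mul_le_mul _ hB (by positivity) (by positivity)
            exact Real.rpow_le_rpow_of_exponent_le (by linarith) (by linarith)
        _ = (N : ℝ) ^ (1 - ε' / 2) := by
            rw [← Real.rpow_add hXp]
            congr 1
            ring
    have h16 : 0 < 16 * (2 : ℝ) ^ (r + 1 + 2 * t) := by positivity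
    have h17 : (16 * (2 : ℝ) ^ (r + 1 + 2 * t)) * (N : ℝ) ^ (1 - ε) ≤
        (16 * (2 : ℝ) ^ (r + 1 + 2 * t)) * ((Exc F S Y N).ncard : ℝ) := by
      linarith
    exact le_of_mul_le_mul_left h17 h16

end Pool.Agent.TH423.GB
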