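import Pool.Agent.TH423.GB.Fam
import Pool.Agent.TH423.DS.Core

/-! One exceptional representation for every pair of parameters; the number of pairs. -/

set_option autoImplicit false

open Finset

namespace Pool.Agent.TH423.GB

open Pool.Agent.H661R3.OP (Rough)
open Pool.Agent.TH423.DS (Rough.mul Rough.prod Rough.prime Cube F_prod prod_one_mod prod_le_pow)

/-- the representations that are counted -/
def Exc {H : Type} (F : ℕ → H) (S : Set H) (Y N : ℕ) : Set ℕ :=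
  {x : ℕ | 1 ≤ x ∧ x < N ∧ Rough Y (x : ℤ) ∧ Rough Y ((N - x : ℕ) : ℤ) ∧ F (x * (N - x)) ∉ S}

theorem pair (r k L : ℕ) (hk : k = 2 + 2 ^ r) (hL : L = primorial (2 * k)) :
    ∃ C : ℕ, ∀ Y : ℕ, 2 ≤ Y → 2 * k ≤ Y → ∀ (N : ℕ) (x0 y0 : ℤ), x0 + y0 = N →
    (∀ p : ℕ, p.Prime → p ≤ 2 * k → ¬ (p : ℤ) ∣ x0) →
    ∀ (P : Fin r → ℕ), (∀ i, (P i).Prime ∧ Y < P i ∧ (L : ℤ) ^ 2 ∣ (P i : ℤ) - 1) →
    ∀ g h : ℕ, 0 < g → 0 < h → Rough Y (g : ℤ) → Rough Y (h : ℤ) → (L : ℤ) ^ 2 ∣ (g : ℤ) - 1 →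
    (L : ℤ) ^ 2 ∣ (h : ℤ) - (1 - L * y0) → IsCoprime (h : ℤ) ((∏ i, (P i : ℤ)) * g) →
    (∀ A : Finset (Fin r), ∃ d : ℕ, (∏ i ∈ A, P i) * g = h + L * d ∧ 0 < d ∧ Rough Y (d : ℤ)) →
    ((Y : ℤ) ^ C + 1) * ((∏ i, (P i : ℤ)) * g * (L : ℤ) ^ 2) * ((∏ i, (P i : ℤ)) * g) < L * N →
    ∀ (Γ : Type) [AddCommGroup Γ] (F : ℕ → Γ),
    (∀ x y : ℕ, x ≠ 0 → y ≠ 0 → F (x * y) = F x + F y) → ∀ S : Set Γ, Cube F S P →
    ∃ x ∈ Exc F S Y N, ∃ (A : Finset (Fin r)) (δ₁ δ₂ : ℕ), δ₁ ∣ x ∧ δ₂ ∣ N - x ∧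
      ((δ₁ = g ∧ (∏ i ∈ A, P i) * g = h + L * δ₂) ∨
        (δ₂ = h ∧ (∏ i ∈ A, P i) * g = h + L * δ₁)) := by
  classical
  have hk4 : 3 ≤ k := by
    have : 1 ≤ 2 ^ r := Nat.one_le_two_pow
    omega
  have hLd : ∀ p : ℕ, p.Prime → ((p : ℤ) ∣ (L : ℤ) ↔ p ≤ 2 * k) := by
    intro p hp
    rw [Int.natCast_dvd_natCast, hL, hp.dvd_primorial_iff]
  have hL0 : 0 < L := by rw [hL]; exact primorial_pos _
  have hL2 : (2 : ℤ) ≤ L := by
    have h1 : (2 : ℤ) ∣ L := by exact_mod_cast (hLd 2 Nat.prime_two).2 (by omega)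
    exact Int.le_of_dvd (by exact_mod_cast hL0) h1
  obtain ⟨C, hC⟩ := fam k (L : ℤ) hL2 hLd
  refine ⟨C, ?_⟩
  intro Y hY hkY N x0 y0 hxy hx0 P hP g h hg hh hgr hhr hg1 hh1 hcop hd hsize Γ _ F hF S hcube
  have hP0 : ∀ i, P i ≠ 0 := fun i => (hP i).1.ne_zero
  have hprod1 : ∀ A : Finset (Fin r), 1 ≤ ∏ i ∈ A, P i := fun A =>
    Nat.one_le_iff_ne_zero.2 (prod_ne_zero_iff.2 fun i _ => hP0 i)
  have hprodz : ∀ A : Finset (Fin r), (0 : ℤ) < ∏ i ∈ A, (P i : ℤ) := fun A => by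
    exact_mod_cast hprod1 A
  choose d hd1 hd2 hd3 using hd
  obtain ⟨g', h', hg', hh', hg'r, hh'r, hEq, hfam⟩ := hC (Finset (Fin r))
    (by simp [hk]) Y hY hkY N x0 y0 hxy hx0 (∏ i, (P i : ℤ)) g h
    (fun A => ∏ i ∈ A, (P i : ℤ)) (fun A => ∏ i ∈ Aᶜ, (P i : ℤ)) (fun A => (d A : ℤ))
    (hprodz univ) (by exact_mod_cast hg) (by exact_mod_cast hh)
    (Rough.prod _ _ fun i _ => Rough.prime (hP i).1 (hP i).2.1) hgr hhr
    (fun A => ⟨hprodz A, hprodz Aᶜ, Finset.prod_mul_prod_compl A _⟩)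
    (fun A => prod_one_mod _ A _ fun i _ => (hP i).2.2)
    (fun A => prod_one_mod _ Aᶜ _ fun i _ => (hP i).2.2)
    (prod_one_mod _ univ _ fun i _ => (hP i).2.2) hg1 hh1 hcop
    (fun A => ⟨by have := hd1 A; zify at this; linarith, by exact_mod_cast hd2 A, hd3 A⟩) hsize
  lift g' to ℕ using hg'.le
  lift h' to ℕ using hh'.le
  have hg'0 : g' ≠ 0 := by omega
  have hh'0 : h' ≠ 0 := by omega
  obtain ⟨A, hA⟩ := hcube (F g + F g' - F h' - F h)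
  obtain ⟨e, he1, he2, he3⟩ := hfam A
  lift e to ℕ using he2.le
  have he0 : e ≠ 0 := by omega
  have hd0 : d A ≠ 0 := by have := hd2 A; omega
  have hdA : (∏ i ∈ A, (P i : ℤ)) * g = h + L * d A := by exact_mod_cast hd1 A
  have hMA : (∏ i ∈ A, (P i : ℤ)) * ∏ i ∈ Aᶜ, (P i : ℤ) = ∏ i, (P i : ℤ) :=
    Finset.prod_mul_prod_compl A _
  have hLz : (L : ℤ) ≠ 0 := by omega
  -- the two representations
  have hrep1 : (∏ i ∈ A, P i) * g * e + g' * d A = N := by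
    have : (L : ℤ) * (((∏ i ∈ A, P i) * g * e + g' * d A : ℕ) : ℤ) = L * N := by
      push_cast
      rw [← hEq, ← hMA]
      linear_combination (-((∏ i ∈ A, (P i : ℤ)) * g)) * he1 - (g' : ℤ) * hdA
    exact_mod_cast mul_left_cancel₀ hLz this
  have hrep2 : (∏ i ∈ Aᶜ, P i) * h' * d A + h * e = N := by
    have : (L : ℤ) * (((∏ i ∈ Aᶜ, P i) * h' * d A + h * e : ℕ) : ℤ) = L * N := by
      push_cast
      rw [← hEq, ← hMA]
      linear_combination (-((∏ i ∈ Aᶜ, (P i : ℤ)) * h')) * hdA - (h : ℤ) * he1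
    exact_mod_cast mul_left_cancel₀ hLz this
  have hA0 : (∏ i ∈ A, P i) ≠ 0 := by have := hprod1 A; omega
  have hB0 : (∏ i ∈ Aᶜ, P i) ≠ 0 := by have := hprod1 Aᶜ; omega
  have hF1 : F ((∏ i ∈ A, P i) * g * e * (g' * d A)) =
      ∑ i ∈ A, F (P i) + F g + F e + (F g' + F (d A)) := by
    rw [hF _ _ (by positivity) (by positivity), hF _ _ (by positivity) he0,
      hF _ _ hA0 (by omega), hF _ _ hg'0 hd0, F_prod F hF A P fun i _ => hP0 i]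
  have hF2 : F ((∏ i ∈ Aᶜ, P i) * h' * d A * (h * e)) =
      ∑ i ∈ Aᶜ, F (P i) + F h' + F (d A) + (F h + F e) := by
    rw [hF _ _ (by positivity) (by positivity), hF _ _ (by positivity) hd0,
      hF _ _ hB0 hh'0, hF _ _ (by omega) he0, F_prod F hF Aᶜ P fun i _ => hP0 i]
  have hx1 : 0 < (∏ i ∈ A, P i) * g * e := by positivity
  have hx2 : 0 < (∏ i ∈ Aᶜ, P i) * h' * d A := by positivity
  have hy1 : 0 < g' * d A := by positivity
  have hy2 : 0 < h * e := by positivity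
  have hs1 : N - (∏ i ∈ A, P i) * g * e = g' * d A := by omega
  have hs2 : N - (∏ i ∈ Aᶜ, P i) * h' * d A = h * e := by omega
  have hPr : ∀ B : Finset (Fin r), Rough Y (∏ i ∈ B, (P i : ℤ)) := fun B =>
    Rough.prod _ _ fun i _ => Rough.prime (hP i).1 (hP i).2.1
  by_cases h1 : F ((∏ i ∈ A, P i) * g * e * (g' * d A)) ∈ S
  · by_cases h2 : F ((∏ i ∈ Aᶜ, P i) * h' * d A * (h * e)) ∈ S
    · exfalso
      apply hA _ h1 _ h2
      rw [hF1, hF2]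
      abel
    · refine ⟨(∏ i ∈ Aᶜ, P i) * h' * d A, ⟨by omega, by omega, ?_, ?_, ?_⟩, A, d A, h, ?_, ?_,
        Or.inr ⟨rfl, hd1 A⟩⟩
      · push_cast
        exact Rough.mul (Rough.mul (hPr _) hh'r) (hd3 A)
      · rw [hs2]; push_cast
        exact Rough.mul hhr he3
      · rw [hs2]; exact h2
      · exact Dvd.intro_left _ rfl
      · rw [hs2]; exact Dvd.intro _ rfl
  · refine ⟨(∏ i ∈ A, P i) * g * e, ⟨by omega, by omega, ?_, ?_, ?_⟩, A, g, d A, ?_, ?_,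
      Or.inl ⟨rfl, hd1 A⟩⟩
    · push_cast
      exact Rough.mul (Rough.mul (hPr _) hgr) he3
    · rw [hs1]; push_cast
      exact Rough.mul hg'r (hd3 A)
    · rw [hs1]; exact h1
    · exact (Dvd.intro_left _ rfl : g ∣ (∏ i ∈ A, P i) * g).mul_right _
    · rw [hs1]; exact Dvd.intro_left _ rfl

open Classical in
/-- the admissible second parameters -/
noncomputable def hset (r L : ℕ) (Y G : ℕ) (y0 : ℤ) (P : Fin r → ℕ) (g : ℕ) : Finset ℕ :=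
  (Finset.Icc 1 G).filter (fun h => (L : ℤ) ^ 2 ∣ (h : ℤ) - (1 - L * y0) ∧ Rough (Y ^ 3) (h : ℤ) ∧
    ∀ A : Finset (Fin r), ∃ d : ℕ, (∏ i ∈ A, P i) * g = h + L * d ∧ 0 < d ∧ Rough Y (d : ℤ))

theorem hcount (r k L : ℕ) (hk : k = 2 + 2 ^ r) (hL : L = primorial (2 * k)) :
    ∃ C : ℕ, ∀ Y : ℕ, 2 ≤ Y → ∀ y0 : ℤ, (∀ p : ℕ, p.Prime → p ≤ 2 * k → ¬ (p : ℤ) ∣ y0) →
    ∀ P : Fin r → ℕ, (∀ i, (P i).Prime ∧ (L : ℤ) ^ 2 ∣ (P i : ℤ) - 1) →
    ∀ (G g : ℕ), G < g → (L : ℤ) ^ 2 ∣ (g : ℤ) - 1 → Y ^ (3 * C) ≤ G / L ^ 2 →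
    G / L ^ 2 ≤ Y ^ (3 * C) * (hset r L Y G y0 P g).card := by
  classical
  have hk4 : 3 ≤ k := by
    have : 1 ≤ 2 ^ r := Nat.one_le_two_pow
    omega
  have hLd : ∀ p : ℕ, p.Prime → ((p : ℤ) ∣ (L : ℤ) ↔ p ≤ 2 * k) := by
    intro p hp
    rw [Int.natCast_dvd_natCast, hL, hp.dvd_primorial_iff]
  have hL0 : 0 < L := by rw [hL]; exact primorial_pos _
  have hL2 : (2 : ℤ) ≤ L := by
    have h1 : (2 : ℤ) ∣ L := by exact_mod_cast (hLd 2 Nat.prime_two).2 (by omega)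
    exact Int.le_of_dvd (by exact_mod_cast hL0) h1
  obtain ⟨C, hC⟩ := Pool.Agent.H661R3.OP.t_SV k
  refine ⟨C, ?_⟩
  intro Y hY y0 hy0 P hP G g hGg hg1 hT
  have hLsq : (0 : ℤ) < (L : ℤ) ^ 2 := by positivity
  obtain ⟨ρ, hρ1, hρ2, hρ3⟩ : ∃ ρ : ℤ, (L : ℤ) ^ 2 ∣ ρ - (1 - L * y0) ∧ 0 < ρ ∧
      ρ < (L : ℤ) ^ 2 := by
    have h1 : (L : ℤ) ^ 2 ∣ (1 - L * y0) % (L : ℤ) ^ 2 - (1 - L * y0) := by
      refine ⟨-((1 - L * y0) / (L : ℤ) ^ 2), ?_⟩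
      have := Int.emod_add_mul_ediv (1 - L * y0) ((L : ℤ) ^ 2)
      linear_combination this
    refine ⟨(1 - L * y0) % (L : ℤ) ^ 2, h1, ?_, Int.emod_lt_of_pos _ hLsq⟩
    rcases (Int.emod_nonneg (1 - L * y0) hLsq.ne').lt_or_eq with h | h
    · exact h
    · exfalso
      rw [← h] at h1
      have h2 : (L : ℤ) ∣ 0 - (1 - L * y0) := (Dvd.intro_left _ (by ring : (L : ℤ) * L = (L : ℤ) ^ 2)).trans h1
      have h3 : (L : ℤ) ∣ 1 := by
        have e2 : (1 : ℤ) = -(0 - (1 - L * y0)) + L * y0 := by ring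
        rw [e2]
        exact dvd_add ((dvd_neg).2 h2) (Dvd.intro _ rfl)
      have := Int.le_of_dvd one_pos h3
      omega
  have hone : ∀ p : ℕ, p.Prime → ∀ w : ℤ, (p : ℤ) ∣ w - 1 → ¬ (p : ℤ) ∣ w := by
    intro p hp w h1 h2
    have h3 : (p : ℤ) ∣ 1 := by
      have := dvd_sub h2 h1
      simpa using this
    have := Int.le_of_dvd one_pos h3
    have := hp.two_le
    omega
  -- a_A g - ρ = L * (y0 + L z)
  have hz : ∀ A : Finset (Fin r), ∃ z : ℤ, (∏ i ∈ A, (P i : ℤ)) * g - ρ = L * (y0 + L * z) := by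
    intro A
    have h1 : (L : ℤ) ^ 2 ∣ ∏ i ∈ A, (P i : ℤ) - 1 := prod_one_mod _ A _ fun i _ => (hP i).2
    have h2 : (L : ℤ) ^ 2 ∣ (∏ i ∈ A, (P i : ℤ)) * g - ρ - L * y0 := by
      have : (∏ i ∈ A, (P i : ℤ)) * g - ρ - L * y0 =
        (∏ i ∈ A, (P i : ℤ) - 1) * g + ((g : ℤ) - 1) - (ρ - (1 - L * y0)) := by ring
      rw [this]
      exact dvd_sub (dvd_add (h1.mul_right _) hg1) hρ1
    obtain ⟨z, hz⟩ := h2
    exact ⟨z, by linear_combination hz⟩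
  choose z hz using hz
  have hsv := hC (Unit ⊕ Finset (Fin r)) (by simp; omega)
    (Sum.elim (fun _ => (L : ℤ) ^ 2) (fun _ => -(L : ℤ)))
    (Sum.elim (fun _ => ρ) (fun A => y0 + L * z A)) (Y ^ 3)
    (by
      calc 2 ≤ Y := hY
        _ = Y ^ 1 := (pow_one Y).symm
        _ ≤ Y ^ 3 := Nat.pow_le_pow_right (by omega) (by norm_num))
    (by
      intro i p hp _ hdvd
      rcases i with _ | A
      · have h1 : (p : ℤ) ∣ L := (Nat.prime_iff_prime_int.1 hp).dvd_of_dvd_pow hdvd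
        refine hone p hp ρ ?_
        have h2 : (p : ℤ) ∣ ρ - (1 - L * y0) :=
          (h1.trans (Dvd.intro_left _ (by ring : (L : ℤ) * L = (L : ℤ) ^ 2))).trans hρ1
        have : ρ - 1 = (ρ - (1 - L * y0)) - L * y0 := by ring
        rw [this]
        exact dvd_sub h2 (h1.mul_right _)
      · have h1 : (p : ℤ) ∣ L := (dvd_neg).1 hdvd
        intro h2
        apply hy0 p hp ((hLd p hp).1 h1)
        have : y0 = (y0 + L * z A) - L * z A := by ring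
        rw [this]
        exact dvd_sub h2 (h1.mul_right _))
    (by
      intro i p hp hpk
      have h1 := (hLd p hp).2 hpk
      rcases i with _ | A
      · exact h1.trans (Dvd.intro_left _ (by ring : (L : ℤ) * L = (L : ℤ) ^ 2))
      · exact (dvd_neg).2 h1)
    0 (G / L ^ 2) (by rwa [← pow_mul])
  rw [← pow_mul] at hsv
  refine hsv.trans (Nat.mul_le_mul_left _ ?_)
  rw [← Set.ncard_coe_finset]
  refine Set.ncard_le_ncard_of_injOn (fun t : ℤ => (ρ + t * (L : ℤ) ^ 2).toNat) ?_ ?_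
    (Finset.finite_toSet _)
  · rintro t ⟨ht0, htT, htr⟩
    have h1 := htr (Sum.inl ())
    have h2 := fun A => htr (Sum.inr A)
    simp only [Sum.elim_inl, Sum.elim_inr] at h1 h2
    have htL : ρ + t * (L : ℤ) ^ 2 ≤ G := by
      have h3 : t + 1 ≤ ((G / L ^ 2 : ℕ) : ℤ) := by linarith
      have h4 : (((G / L ^ 2 : ℕ) : ℤ)) * (L : ℤ) ^ 2 ≤ G := by
        exact_mod_cast Nat.div_mul_le_self G (L ^ 2)
      nlinarith
    have hpos : 0 < ρ + t * (L : ℤ) ^ 2 := by positivity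
    have hcast : (((ρ + t * (L : ℤ) ^ 2).toNat : ℕ) : ℤ) = ρ + t * (L : ℤ) ^ 2 :=
      Int.toNat_of_nonneg hpos.le
    rw [hset, coe_filter, Set.mem_ofPred_eq, mem_Icc]
    refine ⟨⟨by omega, by omega⟩, ?_, ?_, fun A => ?_⟩
    · rw [hcast]
      have : ρ + t * (L : ℤ) ^ 2 - (1 - L * y0) = (ρ - (1 - L * y0)) + t * (L : ℤ) ^ 2 := by ring
      rw [this]
      exact dvd_add hρ1 (Dvd.intro_left _ rfl)
    · rw [hcast, show ρ + t * (L : ℤ) ^ 2 = (L : ℤ) ^ 2 * t + ρ by ring]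
      exact h1
    · have h3 := h2 A
      have h4 := hz A
      have h5 : (∏ i ∈ A, (P i : ℤ)) * g = (ρ + t * (L : ℤ) ^ 2) + L * (-(L : ℤ) * t +
          (y0 + L * z A)) := by linear_combination h4
      have hprod1 : 1 ≤ ∏ i ∈ A, P i :=
        Nat.one_le_iff_ne_zero.2 (prod_ne_zero_iff.2 fun i _ => (hP i).1.ne_zero)
      have hp1 : (1 : ℤ) ≤ ∏ i ∈ A, (P i : ℤ) := by exact_mod_cast hprod1
      have hgG : (G : ℤ) < g := by exact_mod_cast hGg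
      have h6 : (g : ℤ) ≤ (∏ i ∈ A, (P i : ℤ)) * g := by nlinarith [(Nat.zero_le g)]
      have h7 : 0 < (L : ℤ) * (-(L : ℤ) * t + (y0 + L * z A)) := by linarith
      have h8 : 0 < -(L : ℤ) * t + (y0 + L * z A) :=
        (mul_pos_iff_of_pos_left (by omega)).1 h7
      refine ⟨(-(L : ℤ) * t + (y0 + L * z A)).toNat, ?_, by omega, ?_⟩
      · zify
        rw [hcast, Int.toNat_of_nonneg h8.le]
        exact h5
      · rw [Int.toNat_of_nonneg h8.le]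
        intro p hp hpY
        apply h3 p hp
        calc p ≤ Y := hpY
          _ = Y ^ 1 := (pow_one Y).symm
          _ ≤ Y ^ 3 := Nat.pow_le_pow_right (by omega) (by norm_num)
  · rintro t ⟨ht0, -, -⟩ t' ⟨ht0', -, -⟩ heq
    have hpos : 0 < ρ + t * (L : ℤ) ^ 2 := by positivity
    have hpos' : 0 < ρ + t' * (L : ℤ) ^ 2 := by positivity
    simp only at heq
    have h1 : ρ + t * (L : ℤ) ^ 2 = ρ + t' * (L : ℤ) ^ 2 := by
      have := congrArg (Int.ofNat) heq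
      simp only [Int.ofNat_eq_natCast] at this
      rwa [Int.toNat_of_nonneg hpos.le, Int.toNat_of_nonneg hpos'.le] at this
    have h2 : t * (L : ℤ) ^ 2 = t' * (L : ℤ) ^ 2 := by linarith
    exact mul_right_cancel₀ hLsq.ne' h2

end Pool.Agent.TH423.GB
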